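import Mathlib
import Pool.Agent.N718.GC.Stm

/-!
# GC/RESW (helper519, for helper718): a system of primes which change the symbols
-/

set_option autoImplicit false

namespace Pool.Agent.N519.GC

open Finset Pool.Agent.N718.DC Pool.Agent.N718.GC

variable {r m : ℕ}

/-- a system of primes for the pairs of `S` -/
def WP (E : Dat r m) {e : Fin m → ℕ} (c : (i : Fin m) → Fin (e i + 2) → ℤ) (i₀ : Fin r → Fin m)
    (S : Finset (Fin r × Fin m)) (W W' : ℕ) : Prop :=
  ∃ L : Fin r × Fin m → ℕ,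
    (∀ p ∈ S, W < L p ∧ L p ≤ W' ∧ Flip E c p.1 p.2 (i₀ p.1) (L p)) ∧
    ∀ p ∈ S, ∀ p' ∈ S, L p = L p' → p = p'

theorem WP_insert (E : Dat r m) {e : Fin m → ℕ} (c : (i : Fin m) → Fin (e i + 2) → ℤ)
    (i₀ : Fin r → Fin m) (S : Finset (Fin r × Fin m)) (q : Fin r × Fin m) (hq : q ∉ S)
    (W W₁ W₂ : ℕ) (h1 : WP E c i₀ S W W₁) (hW : W < W₁)
    (h2 : ∃ l : ℕ, W₁ < l ∧ l ≤ W₂ ∧ Flip E c q.1 q.2 (i₀ q.1) l) :
    WP E c i₀ (insert q S) W W₂ := by
  obtain ⟨L, hL, hLi⟩ := h1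
  obtain ⟨l, hl1, hl2, hl3⟩ := h2
  refine ⟨Function.update L q l, ?_, ?_⟩
  · intro p hp
    rcases mem_insert.1 hp with rfl | hp
    · rw [Function.update_self]
      exact ⟨by omega, hl2, hl3⟩
    · have hne : p ≠ q := fun h => hq (h ▸ hp)
      rw [Function.update_of_ne hne]
      obtain ⟨g1, g2, g3⟩ := hL p hp
      exact ⟨g1, by omega, g3⟩
  · intro p hp p' hp' hpp
    rcases mem_insert.1 hp with h | hp <;> rcases mem_insert.1 hp' with h' | hp'
    · rw [h, h']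
    · have hne : p' ≠ q := fun h => hq (h ▸ hp')
      rw [h, Function.update_self, Function.update_of_ne hne] at hpp
      have := (hL p' hp').2.1
      omega
    · have hne : p ≠ q := fun h => hq (h ▸ hp)
      rw [h', Function.update_self, Function.update_of_ne hne] at hpp
      have := (hL p hp).2.1
      omega
    · have hne : p ≠ q := fun h => hq (h ▸ hp)
      have hne' : p' ≠ q := fun h => hq (h ▸ hp')
      rw [Function.update_of_ne hne, Function.update_of_ne hne'] at hpp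
      exact hLi p hp p' hp' hpp

open Classical in
theorem resw_aux (h : S_RESL) (E : Dat r m) (e : Fin m → ℕ) (hE : E.Ok e) (i₀ : Fin r → Fin m)
    (S : Finset (Fin r × Fin m)) (hS : ∀ p ∈ S, p.2 ≠ i₀ p.1) :
    ∀ (W : ℕ) (η : ℝ), 0 < η → ∃ W' : ℕ, W < W' ∧ ∃ H₀ : ℕ, ∀ H : ℕ, H₀ ≤ H →
    (((BXI e H).filter (fun c => ¬ WP E c i₀ S W W')).card : ℝ) ≤
      η * ((2 * H + 1 : ℕ) : ℝ) ^ ncI e := by
  induction S using Finset.induction_on with
  | empty =>
    intro W η hη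
    refine ⟨W + 1, Nat.lt_succ_self W, 0, fun H _ => ?_⟩
    have h1 : (BXI e H).filter (fun c => ¬ WP E c i₀ ∅ W (W + 1)) = ∅ := by
      rw [filter_eq_empty_iff]
      intro c _ hc
      exact hc ⟨fun _ => 0, fun p hp => absurd hp (notMem_empty p),
        fun p hp => absurd hp (notMem_empty p)⟩
    rw [h1, card_empty, Nat.cast_zero]
    positivity
  | insert q S hq ih =>
    intro W η hη
    obtain ⟨W₁, hW₁, H₁, h1⟩ := ih (fun p hp => hS p (mem_insert_of_mem hp)) W (η / 2) (by linarith)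
    obtain ⟨W₂, hW₂, H₂, h2⟩ := h r m E e hE q.1 q.2 (i₀ q.1) (hS q (mem_insert_self q S)) W₁
      (η / 2) (by linarith)
    refine ⟨W₂, by omega, max H₁ H₂, fun H hH => ?_⟩
    have g1 := h1 H (le_trans (le_max_left _ _) hH)
    have g2 := h2 H (le_trans (le_max_right _ _) hH)
    have hsub : (BXI e H).filter (fun c => ¬ WP E c i₀ (insert q S) W W₂) ⊆
        (BXI e H).filter (fun c => ¬ WP E c i₀ S W W₁) ∪
        (BXI e H).filter (fun c => ¬ ∃ l : ℕ, W₁ < l ∧ l ≤ W₂ ∧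
          Flip E c q.1 q.2 (i₀ q.1) l) := by
      intro c hc
      rw [mem_filter] at hc
      rw [mem_union, mem_filter, mem_filter]
      by_contra hcon
      push Not at hcon
      obtain ⟨k1, k2⟩ := hcon
      exact hc.2 (WP_insert E c i₀ S q hq W W₁ W₂ (k1 hc.1) hW₁ (k2 hc.1))
    have h3 : (((BXI e H).filter (fun c => ¬ WP E c i₀ (insert q S) W W₂)).card : ℝ) ≤
        (((BXI e H).filter (fun c => ¬ WP E c i₀ S W W₁)).card : ℝ) +
        (((BXI e H).filter (fun c => ¬ ∃ l : ℕ, W₁ < l ∧ l ≤ W₂ ∧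
          Flip E c q.1 q.2 (i₀ q.1) l)).card : ℝ) := by
      exact_mod_cast (card_le_card hsub).trans (card_union_le _ _)
    linarith

theorem resw_ (h : S_RESL) : S_RESW := by
  classical
  intro r m E e hE i₀ W η hη
  obtain ⟨W', hW', H₀, h1⟩ := resw_aux h E e hE i₀
    (univ.filter fun p : Fin r × Fin m => p.2 ∈ E.I p.1 ∧ p.2 ≠ i₀ p.1)
    (fun p hp => (mem_filter.1 hp).2.2) W η hη
  refine ⟨W', hW', H₀, fun H hH => le_trans ?_ (h1 H hH)⟩
  have h2 : ((BXI e H).filter (fun c => ¬ Wind E c i₀ W W')).card ≤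
      ((BXI e H).filter (fun c => ¬ WP E c i₀
        (univ.filter fun p : Fin r × Fin m => p.2 ∈ E.I p.1 ∧ p.2 ≠ i₀ p.1) W W')).card := by
    apply card_le_card
    intro c hc
    rw [mem_filter] at hc ⊢
    refine ⟨hc.1, fun hW => hc.2 ?_⟩
    obtain ⟨L, hL, hLi⟩ := hW
    refine ⟨fun j i => L (j, i), ?_, ?_⟩
    · intro j i hi hi'
      exact hL (j, i) (mem_filter.2 ⟨mem_univ _, hi, hi'⟩)
    · intro j i j' i' hi hi0 hi' hi0' hLL
      have h3 := hLi (j, i) (mem_filter.2 ⟨mem_univ _, hi, hi0⟩) (j', i')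
        (mem_filter.2 ⟨mem_univ _, hi', hi0'⟩) hLL
      exact Prod.mk.inj h3
  exact_mod_cast h2

end Pool.Agent.N519.GC
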